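import Mathlib
import Pool.Agent.K1H97.NA.Fin
import Pool.Agent.K1H97.ST.Main
import Pool.Agent.Y676.Tsm
import Pool.Agent.Y660.TS.Rnk
import Pool.Agent.Y660.TS.Mom
import Pool.Agent.Y46.KEY.Key
import Pool.Agent.W307.RT.Tors

/-!
# The natural density of the 2-Selmer ranks of the twists of almost all tuples of curves

For almost all `k`-tuples of elliptic curves `E_1, …, E_k` over `ℚ` with full rational 2-torsion,
ordered by height, and for a positive proportion of the primes `q` up to any bound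
`Q ≥ (log H) ^ C` there is an integer `M` prime to `q` with the following property. Let `D` run
through the squarefree numbers with all prime factors `≡ 1` modulo `M` and different from `q`, ordered
by size; at least `a X (log X) ^ (1 / φ(M) - 1)` of them are at most `X`, `a > 0`. For every `D` the
2-Selmer groups of the `k` twists by `q D` have the same order `4 * 4 ^ c`; and for every `c ≥ 0`
exactly the proportion `α c = ∏_{i ≥ 0} (1 - 2 ^ (-(2 i + 1))) * ∏_{i < c} 1 / (2 ^ (i + 1) - 1)` of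
the `D ≤ X` has this value `c` in the limit `X → ∞`. In particular all the `k` twists by `q D` have
rank zero and no element of order two in `Ш` for the proportion `α 0 = 0.4194...` of the `D`.

The proof. By the criterion of `Pool/Agent/K1H97/ST` the number `c` is the corank modulo `2` of the
reduced Laplacian of the graph of the nonresidues of the prime factors of `D` and of `q`. The
distribution of the corank in boxes of primes (`NA/Law`, `NA/Box`), the sum over the boxes (`NA/Key`)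
and the exceptional sets of primes (`NA/Cnt`, `NA/Few`, `NA/Bad`, `NA/Low`, `NA/Asy`) follow the
projects CX, CQ, SQ of the library (helpers 703, 302, 391, 362, 949, 37, 475, 413), which compute the
proportion of the nonsingular matrices for three special classes of primes; here the class of primes
is arbitrary, all coranks are computed, and the primes `≡ 1` modulo `M` are treated with the Euler
products of all Dirichlet characters modulo `M` (`NA/Hal`, `NA/Inst`).
-/

set_option autoImplicit false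

namespace Pool.Agent.Results.MP_03e5d0_nt.NaturalDensityTwists

open Finset Filter

open Pool.Agent.TH841.SH.D (Sha)

open Pool.Agent.Y667.SX (Sel2H)

/-- the curve `y² = x³ + A x + B` over `ℚ` -/
def E (A B : ℤ) : WeierstrassCurve ℚ := ⟨0, 0, 0, (A : ℚ), (B : ℚ)⟩

/-- the quadratic twist by `d` of the curve `y² = x³ + A x + B`, `c = (A, B)` -/
def Tw (d : ℤ) (c : ℤ × ℤ) : WeierstrassCurve ℚ := E (d ^ 2 * c.1) (d ^ 3 * c.2)

open Classical in
/-- The pairs `(A, B)` of integers such that `4 A³ + 27 B² ≠ 0`, there is no prime `p` with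
`p⁴ ∣ A` and `p⁶ ∣ B`, the height `max (4 |A|³) (27 B²)` is at most `H`, and `Z/2 x Z/2` embeds in
the group of the rational points of `y² = x³ + A x + B`. (The bounds `|A|, |B| ≤ H` follow from the
bound of the height. Every elliptic curve over `ℚ` is isomorphic to `E A B` for exactly one pair
with the first two properties.) -/
noncomputable def Fam (H : ℕ) : Finset (ℤ × ℤ) :=
  ((Icc (-(H : ℤ)) H) ×ˢ (Icc (-(H : ℤ)) H)).filter (fun c : ℤ × ℤ =>
    4 * c.1 ^ 3 + 27 * c.2 ^ 2 ≠ 0 ∧ 4 * |c.1| ^ 3 ≤ H ∧ 27 * c.2 ^ 2 ≤ H ∧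
    (∀ p : ℕ, p.Prime → ¬ ((p : ℤ) ^ 4 ∣ c.1 ∧ (p : ℤ) ^ 6 ∣ c.2)) ∧
    ∃ f : ZMod 2 × ZMod 2 →+ (E c.1 c.2).toAffine.Point, Function.Injective f)

/-- The 2-Selmer group `ker (H¹(ℚ, W[2]) → ∏ H¹(ℚ_v, W))` of `W` has `2 ^ (2 + s)` elements, and
`2 ^ r * #Ш(W)[2] = 2 ^ s`, where `r` is the rank of `W`. (For a curve with full rational 2-torsion:
the 2-Selmer group modulo the image of the torsion has dimension `s`.) -/
def SelmerDim (W : WeierstrassCurve ℚ) (s : ℕ) : Prop :=
  (Finite (Sel2H W) ∧ Nat.card (Sel2H W) = 2 ^ (2 + s)) ∧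
  Finite {x : Sha W // x + x = 0} ∧
    2 ^ Module.finrank ℤ W.toAffine.Point * Nat.card {x : Sha W // x + x = 0} = 2 ^ s

/-- the squarefree numbers `D` all of whose prime factors are `≡ 1` modulo `M` and different from
`q` -/
def Cls (M q D : ℕ) : Prop := Squarefree D ∧ ∀ p : ℕ, p.Prime → p ∣ D → p % M = 1 ∧ p ≠ q

open Classical in
/-- the number of the `D ≤ X` of the class with the property `R` -/
noncomputable def count (M q : ℕ) (R : ℕ → Prop) (X : ℕ) : ℕ :=
  ((Icc 1 X).filter fun D => Cls M q D ∧ R D).card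

/-- `∏_{i ≥ 0} (1 - 2 ^ (-(2 i + 1))) * ∏_{i < c} 1 / (2 ^ (i + 1) - 1)` -/
noncomputable def α (c : ℕ) : ℝ :=
  (∏' i : ℕ, (1 - (1 / 2 : ℝ) ^ (2 * i + 1))) * ∏ i ∈ range c, (1 / (2 ^ (i + 1) - 1) : ℝ)

/-- The prime `q` is good for the curves `x 1, …, x k`: there is a positive multiple `M` of `8`,
prime to `q`, such that, for the squarefree numbers `D` with all prime factors `≡ 1` modulo `M` and
different from `q`:

* the number of the `D ≤ X` is at least `a X (log X) ^ (1 / φ(M) - 1)` for large `X`, `a > 0`;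
* for every `D` the 2-Selmer groups (modulo the torsion) of the twists by `q D` of all the curves
  have the same dimension, which is even;
* for every `c` the proportion of the `D ≤ X` for which this dimension is `2 c` tends to `α c`. -/
def GoodPrime {k : ℕ} (x : Fin k → ℤ × ℤ) (q : ℕ) : Prop :=
  q.Prime ∧ ∃ M : ℕ, 0 < M ∧ 8 ∣ M ∧ Nat.Coprime q M ∧
    (∃ a : ℝ, 0 < a ∧ ∀ᶠ X : ℕ in atTop,
      a * X * (Real.log X) ^ (-1 + 1 / (M.totient : ℝ)) ≤ (count M q (fun _ => True) X : ℝ)) ∧
    (∀ D : ℕ, Cls M q D → ∃ c : ℕ, ∀ i, SelmerDim (Tw (q * D : ℕ) (x i)) (2 * c)) ∧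
    ∀ c : ℕ, Tendsto (fun X : ℕ =>
      (count M q (fun D => ∀ i, SelmerDim (Tw (q * D : ℕ) (x i)) (2 * c)) X : ℝ) /
        (count M q (fun _ => True) X : ℝ)) atTop (nhds (α c))

open Classical in
/-- the good primes `q ≤ Q` -/
noncomputable def GQ {k : ℕ} (Q : ℕ) (x : Fin k → ℤ × ℤ) : Finset ℕ :=
  (Icc 1 Q).filter (GoodPrime x)

lemma Fam_eq (H : ℕ) : Fam H = Pool.Agent.W307.RT.Cv 2 H := by
  classical
  unfold Fam Pool.Agent.W307.RT.Cv
  apply filter_congr
  intro c _
  have h : Pool.Agent.W307.RT.HasT 2 (Pool.Agent.W307.RT.Sh c.1 c.2) ↔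
      ∃ f : ZMod 2 × ZMod 2 →+ (E c.1 c.2).toAffine.Point, Function.Injective f :=
    Pool.Agent.W307.RT.tors_iff
  rw [h]

lemma selmerDim_iff {c : ℤ × ℤ} {d : ℤ} {m : ℕ} :
    SelmerDim (Tw d c) (2 * m) ↔ Pool.Agent.K1H97.ST.St c d m := by
  have e1 : (2 : ℕ) ^ (2 + 2 * m) = 4 ^ (m + 1) := by
    rw [pow_add, pow_mul]
    ring
  have e2 : (2 : ℕ) ^ (2 * m) = 4 ^ m := by
    rw [pow_mul]
    norm_num
  unfold SelmerDim Pool.Agent.K1H97.ST.St
  rw [e1, e2]
  exact Iff.rfl

lemma cls_iff {M q D : ℕ} (hM : 1 < M) : Cls M q D ↔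
    Squarefree D ∧ Pool.Agent.K1H97.NA.Cl (Pool.Agent.K1H97.NA.PM M q) D.primeFactors := by
  unfold Cls
  refine and_congr_right fun hD => ?_
  have hD0 : D ≠ 0 := hD.ne_zero
  constructor
  · intro h p hp
    have hp' := Nat.prime_of_mem_primeFactors hp
    obtain ⟨h1, h2⟩ := h p hp' (Nat.dvd_of_mem_primeFactors hp)
    refine ⟨hp', ?_, h2⟩
    show p % M = 1 % M
    rw [h1, Nat.mod_eq_of_lt hM]
  · intro h p hp hpD
    obtain ⟨-, h1, h2⟩ := h p ((Nat.mem_primeFactors_of_ne_zero hD0).2 ⟨hp, hpD⟩)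
    refine ⟨?_, h2⟩
    have h3 : p % M = 1 % M := h1
    rw [h3, Nat.mod_eq_of_lt hM]

lemma good_of {k : ℕ} (hk : 0 < k) {x : Fin k → ℤ × ℤ} {q : ℕ}
    (h : Pool.Agent.K1H97.ST.GP x q) : GoodPrime x q := by
  classical
  obtain ⟨hq, hq8, M, hM, hM8, hcop, h⟩ := h
  have hM1 : 1 < M := by
    have := Nat.le_of_dvd hM hM8
    omega
  have hM4 : 4 ∣ M := Dvd.dvd.trans (by norm_num) hM8
  have hCP := Pool.Agent.K1H97.NA.inst M q hM4 hM.ne' ⟨hq, by omega⟩ hcop
  -- the twists
  have key : ∀ D : ℕ, Cls M q D → ∃ e : Fin D.primeFactors.card ≃ D.primeFactors,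
      ∀ i, Pool.Agent.K1H97.ST.St (x i) ((q * D : ℕ) : ℤ) (D.primeFactors.card -
        (Pool.Agent.K1H97.ST.Lap q fun j => (e j : ℕ)).rank) := by
    intro D hD
    have e : Fin D.primeFactors.card ≃ D.primeFactors := D.primeFactors.equivFin.symm
    refine ⟨e, fun i => ?_⟩
    have h1 := h D.primeFactors.card (fun j => (e j : ℕ))
      (fun a b hab => e.injective (Subtype.ext hab)) (fun j => ((cls_iff hM1).1 hD).2 _ (e j).2) i
    have h2 : ∏ j, (e j : ℕ) = D := by
      have h3 : ∏ j, (e j : ℕ) = ∏ p : D.primeFactors, (p : ℕ) :=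
        Equiv.prod_comp e fun p : D.primeFactors => (p : ℕ)
      rw [h3, Finset.prod_coe_sort D.primeFactors fun p => p,
        Nat.prod_primeFactors_of_squarefree hD.1]
    rw [h2] at h1
    exact h1
  have hc0 : ∀ X : ℕ, count M q (fun _ => True) X = ((Icc 1 X).filter fun D =>
      Squarefree D ∧
        Pool.Agent.K1H97.NA.Cl (Pool.Agent.K1H97.NA.PM M q) D.primeFactors).card := by
    intro X
    unfold count
    congr 1
    ext D
    simp only [Finset.mem_filter, and_true, cls_iff hM1]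
  have hcc : ∀ c X : ℕ, count M q
      (fun D => ∀ i, SelmerDim (Tw (q * D : ℕ) (x i)) (2 * c)) X = ((Icc 1 X).filter fun D =>
      (Squarefree D ∧ Pool.Agent.K1H97.NA.Cl (Pool.Agent.K1H97.NA.PM M q) D.primeFactors) ∧
        Pool.Agent.K1H97.NA.Ev q c D.primeFactors).card := by
    intro c X
    unfold count
    congr 1
    ext D
    simp only [Finset.mem_filter]
    refine and_congr_right fun _ => ?_
    rw [← cls_iff hM1]
    refine and_congr_right fun hD => ?_
    obtain ⟨e, he⟩ := key D hD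
    rw [Pool.Agent.K1H97.NA.ev_rank e]
    constructor
    · intro hc
      have h9 := (selmerDim_iff.1 (hc ⟨0, hk⟩)).1.2
      have h10 := (he ⟨0, hk⟩).1.2
      rw [h10] at h9
      have h11 := Nat.pow_right_injective (by norm_num : 2 ≤ 4) h9
      omega
    · intro hc i
      rw [selmerDim_iff, ← hc]
      exact he i
  refine ⟨hq, M, hM, hM8, hcop, ?_, fun D hD => ?_, fun c => ?_⟩
  · obtain ⟨a, X₀, ha, hX⟩ := Pool.Agent.K1H97.NA.size_D hCP
    refine ⟨a, ha, ?_⟩
    filter_upwards [eventually_ge_atTop X₀] with X hX0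
    rw [hc0 X]
    exact hX X hX0
  · obtain ⟨e, he⟩ := key D hD
    exact ⟨_, fun i => selmerDim_iff.2 (he i)⟩
  · refine (Pool.Agent.K1H97.NA.law_D hCP c).congr fun X => ?_
    rw [hcc c X, hc0 X]

lemma sub_GQ {k : ℕ} (hk : 0 < k) (Q : ℕ) (x : Fin k → ℤ × ℤ) :
    Pool.Agent.K1H97.ST.UQ Q x ⊆ GQ Q x := by
  classical
  intro q hq
  unfold Pool.Agent.K1H97.ST.UQ at hq
  unfold GQ
  rw [mem_filter] at hq ⊢
  exact ⟨hq.1, good_of hk hq.2⟩

open Classical in
/-- **Theorem.** For every `k ≥ 1` there is a constant `C` such that for every `ε > 0` there is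
`κ > 0` such that for all large `H` and all `Q ≥ (log H) ^ C` the following holds for all but at most
`ε * (#Fam H) ^ k` of the `k`-tuples of elliptic curves over `ℚ` with full rational 2-torsion and
height at most `H`: at least `κ * Q / log Q` primes `q ≤ Q` (a positive proportion of the primes up
to `Q`) are good for the tuple (`GoodPrime`): for some `M` prime to `q` the twists of all the curves
of the tuple by `q D`, where `D` is squarefree and its prime factors are `≡ 1` modulo `M` and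
different from `q`, have 2-Selmer groups (modulo the torsion) of the same dimension, and for every
`c` exactly the proportion `α c` of the `D`, ordered by size, has the dimension `2 c`. The proportion
for `c = 0`, when all the twists have rank zero and no element of order two in `Ш`, is
`α 0 = 0.4194...`. -/
theorem result : (0.4194 < α 0 ∧ α 0 < 0.4195) ∧
    ∀ k : ℕ, 0 < k → ∃ C : ℕ, ∀ ε : ℝ, 0 < ε → ∃ κ : ℝ, 0 < κ ∧ ∃ H₀ : ℕ,
    ∀ H : ℕ, H₀ ≤ H → ∀ Q : ℕ, (Real.log H) ^ C ≤ Q →
    (((Fintype.piFinset (fun _ : Fin k => Fam H)).filter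
      (fun x => ¬ κ * Q / Real.log Q ≤ ((GQ Q x).card : ℝ))).card : ℝ) ≤
        ε * ((Fam H).card : ℝ) ^ k := by
  refine ⟨?_, fun k hk => ⟨Pool.Agent.Y676.CE k, fun ε hε => ?_⟩⟩
  · have e : α 0 = Pool.Agent.Y703.CQ.c2 := by
      unfold α Pool.Agent.Y703.CQ.c2
      rw [prod_range_zero, mul_one]
    rw [e]
    exact ⟨Pool.Agent.Y948.CQ.t_C2.2.2.2.1, Pool.Agent.Y948.CQ.t_C2.2.2.2.2⟩
  obtain ⟨κ, hκ, H₀, h⟩ := Pool.Agent.K1H97.ST.main
    (Pool.Agent.Y46.KEY.key_of Pool.Agent.Y660.TS.rnk Pool.Agent.Y676.Tsm.tsm)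
    Pool.Agent.Y660.TS.mom k hk ε hε
  refine ⟨κ, hκ, H₀, fun H hH Q hQ => ?_⟩
  rw [Fam_eq]
  refine le_trans ?_ (h H hH Q hQ)
  refine Nat.cast_le.2 (card_le_card fun x hx => ?_)
  rw [mem_filter] at hx ⊢
  refine ⟨hx.1, fun h' => hx.2 (h'.trans ?_)⟩
  exact Nat.cast_le.2 (card_le_card (sub_GQ hk Q x))

end Pool.Agent.Results.MP_03e5d0_nt.NaturalDensityTwists
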